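import Pool.Agent.X321.DC.Main
set_option autoImplicit false

/-!
Weighted Laplacians: the matrices `L` of the differences `Λ_{k,l} - Λ_{0,l}`, and the determinants of
matrices near `L`.
-/

namespace Pool.Agent.X321.LG

variable {g : ℕ}

/-- the Laplacian of the weights `w`, plus `m` times the identity -/
def lap (w : Fin (g + 1) → Fin (g + 1) → ℝ) (m : ℝ) (i j : Fin (g + 1)) : ℝ :=
  if i = j then m + ∑ k ∈ Finset.univ.erase i, w i k else -w i j

/-- the differences to the row `0`, without the column `0`, as a function of the column and the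
row -/
def lmat (w : Fin (g + 1) → Fin (g + 1) → ℝ) (m : ℝ) : Matrix (Fin g) (Fin g) ℝ :=
  Matrix.of fun l k => lap w m k.succ l.succ - lap w m 0 l.succ

theorem lap_symm {w : Fin (g + 1) → Fin (g + 1) → ℝ} (hw : ∀ i j, w i j = w j i) (m : ℝ)
    (i j : Fin (g + 1)) : lap w m i j = lap w m j i := by
  unfold lap
  by_cases h : i = j
  · subst h
    rfl
  · rw [if_neg h, if_neg (Ne.symm h), hw]

theorem sum_lap (w : Fin (g + 1) → Fin (g + 1) → ℝ) (m : ℝ) (i : Fin (g + 1)) :
    ∑ j, lap w m i j = m := by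
  rw [← Finset.add_sum_erase Finset.univ _ (Finset.mem_univ i)]
  have h1 : ∑ j ∈ Finset.univ.erase i, lap w m i j = -∑ j ∈ Finset.univ.erase i, w i j := by
    rw [← Finset.sum_neg_distrib]
    refine Finset.sum_congr rfl fun j hj => ?_
    unfold lap
    rw [if_neg (Finset.ne_of_mem_erase hj).symm]
  rw [h1]
  unfold lap
  rw [if_pos rfl]
  ring

/-- **The maximum principle.** -/
theorem bound {w : Fin (g + 1) → Fin (g + 1) → ℝ} (hw : ∀ i j, w i j = w j i) {m c N : ℝ}
    (hc : ∀ i j, i ≠ j → c ≤ w i j) (hN : N = m + (g + 1) * c) (hN0 : 0 < N)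
    {x y : Fin g → ℝ} {Y : ℝ} (hxy : (lmat w m).mulVec x = y) (hY : ∀ l, |y l| ≤ Y) (k : Fin g) :
    |x k| ≤ (g * Y) / N := by
  set v : Fin (g + 1) → ℝ := Fin.cons (-∑ k, x k) x with hv
  have hv0 : ∑ i, v i = 0 := by
    rw [Fin.sum_univ_succ, hv]
    simp only [Fin.cons_zero, Fin.cons_succ]
    ring
  set u : Fin (g + 1) → ℝ := fun l => ∑ i, lap w m i l * v i with hu
  have hus : ∀ l : Fin g, u l.succ = y l := by
    intro l
    have h1 := congrFun hxy l
    rw [Matrix.mulVec, dotProduct] at h1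
    rw [← h1, hu]
    simp only
    rw [Fin.sum_univ_succ, hv]
    simp only [Fin.cons_zero, Fin.cons_succ]
    rw [mul_neg, Finset.mul_sum, ← Finset.sum_neg_distrib, ← Finset.sum_add_distrib]
    refine Finset.sum_congr rfl fun k _ => ?_
    unfold lmat
    rw [Matrix.of_apply]
    ring
  have husum : ∑ l, u l = 0 := by
    rw [hu]
    simp only
    rw [Finset.sum_comm]
    have h1 : ∀ i, ∑ l, lap w m i l * v i = m * v i := fun i => by
      rw [← Finset.sum_mul, sum_lap]
    rw [Finset.sum_congr rfl fun i _ => h1 i, ← Finset.mul_sum, hv0, mul_zero]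
  have hg : (0 : ℝ) < g := by
    have := k.isLt
    exact_mod_cast (by omega : 0 < g)
  have hY0 : 0 ≤ Y := (abs_nonneg _).trans (hY k)
  have hub : ∀ l, |u l| ≤ g * Y := by
    intro l
    refine Fin.cases ?_ (fun l => ?_) l
    · rw [Fin.sum_univ_succ] at husum
      have h1 : u 0 = -∑ l : Fin g, u l.succ := by linarith
      rw [h1, abs_neg]
      refine (Finset.abs_sum_le_sum_abs _ _).trans ?_
      have h2 : ∑ l : Fin g, |u l.succ| ≤ ∑ _l : Fin g, Y :=
        Finset.sum_le_sum fun l _ => by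
          rw [hus l]
          exact hY l
      refine h2.trans (le_of_eq ?_)
      rw [Finset.sum_const, Finset.card_univ, Fintype.card_fin, nsmul_eq_mul]
    · rw [hus]
      refine (hY l).trans ?_
      have h1 : (1 : ℝ) ≤ g := by exact_mod_cast (by exact_mod_cast hg : 0 < g)
      nlinarith
  have hform : ∀ l, u l = m * v l + ∑ i, (if i = l then 0 else w l i * (v l - v i)) := by
    intro l
    rw [hu]
    simp only
    rw [← Finset.add_sum_erase Finset.univ _ (Finset.mem_univ l),
      ← Finset.add_sum_erase Finset.univ (fun i => if i = l then 0 else w l i * (v l - v i))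
        (Finset.mem_univ l), if_pos rfl, zero_add]
    have h1 : ∀ i ∈ Finset.univ.erase l, (if i = l then 0 else w l i * (v l - v i)) =
        w l i * v l - w l i * v i := fun i hi => by
      rw [if_neg (Finset.ne_of_mem_erase hi)]
      ring
    have h2 : ∀ i ∈ Finset.univ.erase l, lap w m i l * v i = -(w l i * v i) := fun i hi => by
      unfold lap
      rw [if_neg (Finset.ne_of_mem_erase hi), hw i l]
      ring
    rw [Finset.sum_congr rfl h1, Finset.sum_congr rfl h2, Finset.sum_sub_distrib,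
      Finset.sum_neg_distrib, ← Finset.sum_mul]
    unfold lap
    rw [if_pos rfl]
    ring
  have hsum : ∀ l, ∑ i, (v l - v i) = (g + 1) * v l := by
    intro l
    rw [Finset.sum_sub_distrib, hv0, Finset.sum_const, Finset.card_univ, Fintype.card_fin,
      nsmul_eq_mul]
    push_cast
    ring
  obtain ⟨p, -, hp⟩ := Finset.exists_max_image Finset.univ v ⟨0, Finset.mem_univ _⟩
  obtain ⟨q, -, hq⟩ := Finset.exists_min_image Finset.univ v ⟨0, Finset.mem_univ _⟩
  have hup : N * v p ≤ u p := by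
    rw [hform, hN, add_mul]
    have h1 : (g + 1) * c * v p = ∑ i, c * (v p - v i) := by
      rw [← Finset.mul_sum, hsum]
      ring
    rw [h1]
    refine add_le_add le_rfl (Finset.sum_le_sum fun i _ => ?_)
    by_cases hi : i = p
    · rw [if_pos hi, hi]
      simp
    · rw [if_neg hi]
      exact mul_le_mul_of_nonneg_right (hc p i (Ne.symm hi))
        (sub_nonneg.2 (hp i (Finset.mem_univ i)))
  have huq : u q ≤ N * v q := by
    rw [hform, hN, add_mul]
    have h1 : (g + 1) * c * v q = ∑ i, c * (v q - v i) := by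
      rw [← Finset.mul_sum, hsum]
      ring
    rw [h1]
    refine add_le_add le_rfl (Finset.sum_le_sum fun i _ => ?_)
    by_cases hi : i = q
    · rw [if_pos hi, hi]
      simp
    · rw [if_neg hi]
      exact mul_le_mul_of_nonpos_right (hc q i (Ne.symm hi))
        (sub_nonpos.2 (hq i (Finset.mem_univ i)))
  have h1 := abs_le.1 (hub p)
  have h2 := abs_le.1 (hub q)
  have h3 : v p ≤ g * Y / N := by
    rw [le_div_iff₀ hN0]
    linarith
  have h4 : -(g * Y / N) ≤ v q := by
    rw [neg_le, ← neg_le_neg_iff, neg_neg]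
    rw [← neg_div, div_le_iff₀ hN0]
    linarith
  have h5 : v k.succ = x k := by rw [hv, Fin.cons_succ]
  rw [← h5, abs_le]
  exact ⟨h4.trans (hq _ (Finset.mem_univ _)), (hp _ (Finset.mem_univ _)).trans h3⟩

theorem det_lmat_ne_zero {w : Fin (g + 1) → Fin (g + 1) → ℝ} (hw : ∀ i j, w i j = w j i)
    {m c N : ℝ} (hc : ∀ i j, i ≠ j → c ≤ w i j) (hN : N = m + (g + 1) * c) (hN0 : 0 < N) :
    (lmat w m).det ≠ 0 := by
  intro h
  obtain ⟨x, hx0, hx⟩ := Matrix.exists_mulVec_eq_zero_iff.2 h
  refine hx0 (funext fun k => ?_)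
  have h1 := bound hw hc hN hN0 hx (Y := 0) (fun l => by rw [Pi.zero_apply, abs_zero]) k
  rw [mul_zero, zero_div] at h1
  exact abs_eq_zero.1 (le_antisymm h1 (abs_nonneg _))

/-- **Determinants of matrices near `L`.** -/
theorem det_near (g : ℕ) {ε : ℝ} (hε : 0 < ε) : ∃ δ : ℝ, 0 < δ ∧
    ∀ (w : Fin (g + 1) → Fin (g + 1) → ℝ) (m c N : ℝ), (∀ i j, w i j = w j i) →
      (∀ i j, i ≠ j → c ≤ w i j) → N = m + (g + 1) * c → 1 ≤ N →
      ∀ R : Matrix (Fin g) (Fin g) ℝ, (∀ l k, |R l k - lmat w m l k| ≤ δ) →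
        |R.det / (lmat w m).det - 1| ≤ ε := by
  obtain ⟨δ, hδ, -, h⟩ := Pool.Agent.X321.DC.exists_near_one (Fin g) hε
  refine ⟨δ / (g + 1), by positivity, fun w m c N hw hc hN hN1 R hR => ?_⟩
  have hN0 : 0 < N := by linarith
  have hdet := det_lmat_ne_zero hw hc hN hN0
  have hu : IsUnit (lmat w m).det := isUnit_iff_ne_zero.2 hdet
  set P : Matrix (Fin g) (Fin g) ℝ := (lmat w m)⁻¹ * (R - lmat w m) with hP
  have hR1 : R = lmat w m * (1 + P) := by
    rw [hP, Matrix.mul_add, Matrix.mul_one, Matrix.mul_nonsing_inv_cancel_left _ _ hu]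
    abel
  have h1 : R.det / (lmat w m).det = (1 + P).det := by
    conv_lhs => rw [hR1]
    rw [Matrix.det_mul, mul_div_cancel_left₀ _ hdet]
  rw [h1]
  refine h _ fun i j => ?_
  rw [Matrix.add_apply, Matrix.one_apply, add_sub_cancel_left]
  have h2 : (lmat w m).mulVec (fun i => P i j) = fun i => (R - lmat w m) i j := by
    have h3 : lmat w m * P = R - lmat w m := by
      rw [hP, Matrix.mul_nonsing_inv_cancel_left _ _ hu]
    funext i
    have h4 := congrFun (congrFun h3 i) j
    rw [← h4]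
    rfl
  have h5 := bound hw hc hN hN0 h2 (Y := δ / (g + 1)) (fun l => hR l j) i
  refine h5.trans ?_
  have hg0 : (0 : ℝ) ≤ g := Nat.cast_nonneg g
  rw [div_le_iff₀ hN0]
  have h6 : (g : ℝ) * (δ / (g + 1)) ≤ δ := by
    rw [mul_div_assoc', div_le_iff₀ (by positivity)]
    nlinarith
  nlinarith

end Pool.Agent.X321.LG
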