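import Pool.Agent.X321.LG.Sep
import Pool.Agent.X321.LG.Mat
set_option autoImplicit false

/-!
The regulator matrix of the symbols `{z, (x - b_k) / (x - b_0)}` up to a small error: the argument of
`Pool.Agent.TH690.UF.exists_loops_of` with estimates for all entries.
-/

namespace Pool.Agent.X321.LG

open Polynomial Metric

open Pool.Agent.TH826.MK (Torus symb circ norm_circ contDiff_circ circ_add_one KQ Unramified)

open Pool.Agent.TH826.HD

open Pool.Agent.TH826.UH hiding det_ne_zero exists_loops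

open Pool.Agent.TH690.UR (Disc)

variable {K : Type*} [Field K] {s : K →+* ℂ} {g : ℕ} {F : K[X]} {b : Fin (g + 1) → K}
  {ρ η : ℝ}

/-- The regulators up to a small error. -/
theorem exists_loops_near (H : Sepd (F.map s) (fun j => s (b j)) ρ η) {e : ℝ} (he : e ≤ 1 / 2)
    (hρe : ∀ i j, i ≠ j → ρ ≤ e * ‖s (b i) - s (b j)‖)
    (ht : ∀ m, ∃ ζ : ℂ, ‖ζ‖ = 1 ∧ s (F.eval (b m)) = ζ + ζ⁻¹) :
    ∃ Γ : Fin g → Torus (POpen F b) 1,
      (∀ l θ (y : K), (Γ l).e θ (pcst F b y) = s y) ∧
      ∀ l k, |(Γ l).reg (symb (pent F b k.succ 0)) - 2 * Real.pi *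
        lmat (fun i j => Real.log ‖s (b i) - s (b j)‖)
          (Real.log ‖(F.map s).leadingCoeff‖) l k| ≤ 4 * Real.pi * (g + 1) * e := by
  obtain ⟨x, han, hdisc, hprod, -⟩ := H.exists_branches
  obtain ⟨R, hR, hRη⟩ := exists_radius H.eta
  have hR0 : 0 < R := one_pos.trans hR
  have hz := nz_circ hR0
  set u : ℝ → ℂ := fun t => circ R t + (circ R t)⁻¹ with hu
  have hucd : ContDiff ℝ 2 u := (contDiff_circ R).add ((contDiff_circ R).inv hz.ne_zero)
  have hub : ∀ t, u t ∈ ball (0 : ℂ) (2 + η) := by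
    intro t
    rw [mem_ball_zero_iff]
    refine (norm_add_le _ _).trans_lt ?_
    rw [norm_inv, norm_circ hR0.le]
    exact hRη
  have hper : ∀ t, u (t + 1) = u t := fun t => by
    simp only [hu, circ_add_one]
  set Y : Fin (g + 1) → ℝ → ℂ := fun j t => x j (u t) with hY
  have hYcd : ∀ j, ContDiff ℝ 2 (Y j) := by
    intro j
    rw [contDiff_iff_contDiffAt]
    intro t
    exact ((han j _ (hub t)).contDiffAt.restrict_scalars ℝ).comp t hucd.contDiffAt
  have hYper : ∀ j t, Y j (t + 1) = Y j t := fun j t => by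
    simp only [hY, hper]
  have hval : ∀ j t, F.eval₂ s (Y j t) = u t := by
    intro j t
    have h1 := eval_map_sub (hprod _ (hub t)) (Y j t)
    rw [Finset.prod_eq_zero (Finset.mem_univ j) (by simp [hY]), mul_zero] at h1
    exact sub_eq_zero.1 h1
  have hsF : ∀ m, s (F.eval (b m)) = F.eval₂ s (s (b m)) := fun m => by
    rw [Polynomial.eval₂_hom]
  have hne : ∀ j t m, Y j t ≠ s (b m) := by
    intro j t m h
    obtain ⟨ζ, hζ, hζ'⟩ := ht m
    have hζ0 : ζ ≠ 0 := fun h0 => by rw [h0, norm_zero] at hζ; exact zero_ne_one hζ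
    have h1 := hval j t
    rw [h, ← hsF, hζ'] at h1
    have h2 := hz.ne_zero t
    have h3 : (circ R t - ζ) * (circ R t - ζ⁻¹) = 0 := by
      have h4 : u t = circ R t + (circ R t)⁻¹ := rfl
      rw [h4] at h1
      have h5 : circ R t * (circ R t)⁻¹ = 1 := mul_inv_cancel₀ h2
      have h6 : ζ * ζ⁻¹ = 1 := mul_inv_cancel₀ hζ0
      linear_combination (-circ R t) * h1 - h5 + h6
    rcases mul_eq_zero.1 h3 with h4 | h4
    · have h5 := congrArg norm (sub_eq_zero.1 h4)
      rw [norm_circ hR0.le, hζ] at h5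
      exact hR.ne' h5
    · have h5 := congrArg norm (sub_eq_zero.1 h4)
      rw [norm_circ hR0.le, norm_inv, hζ, inv_one] at h5
      exact hR.ne' h5
  have hP : ∀ j t, PtS s F b (Y j t) (circ R t) := by
    intro j t
    refine ⟨?_, hne j t⟩
    rw [hval j t]
    have h2 : circ R t * (circ R t)⁻¹ = 1 := mul_inv_cancel₀ (hz.ne_zero t)
    have h4 : u t = circ R t + (circ R t)⁻¹ := rfl
    rw [h4]
    linear_combination -h2
  set I : Fin (g + 1) → Fin (g + 1) → ℝ := fun i j => pr (circ R) (fun t => Y j t - s (b i))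
    with hI
  have nY : ∀ i j, NZ fun t => s (b i) - Y j t := fun i j =>
    ⟨contDiff_const.sub (hYcd j), fun t => sub_ne_zero.2 (hne j t i).symm⟩
  have hIneg : ∀ i j, I i j = pr (circ R) (fun t => s (b i) - Y j t) := by
    intro i j
    rw [hI]
    simp only
    rw [← pr_neg]
    congr 1
    funext t
    ring
  set μ : ℂ := (F.map s).leadingCoeff with hμ
  have hμ0 : μ ≠ 0 := H.lead_ne_zero
  have hrow : ∀ i, ∑ j, I i j = 2 * Real.pi * Real.log ‖μ‖ := by
    intro i
    obtain ⟨ζ, hζ, hζ'⟩ := ht i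
    simp only [hIneg]
    rw [← pr_prod Finset.univ hz (fun j => nY i j)]
    have hc : NZ fun _ : ℝ => μ := ⟨contDiff_const, fun _ => hμ0⟩
    have h1 := pr_mul hz hc (NZ.prod Finset.univ (fun j => nY i j))
    have h2 : pr (circ R) (fun t => μ * ∏ j, (s (b i) - Y j t)) = 0 := by
      rw [← pr_circ hR hζ, ← pr_neg]
      congr 1
      funext t
      have h3 := eval_map_sub (hprod _ (hub t)) (s (b i))
      rw [← hsF, hζ'] at h3
      have h4 : u t = circ R t + (circ R t)⁻¹ := rfl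
      rw [h4] at h3
      have h5 : ∏ j, (s (b i) - Y j t) = ∏ j, (s (b i) - x j (circ R t + (circ R t)⁻¹)) := rfl
      rw [h5, ← h3]
      ring
    rw [h2, pr_const hR0] at h1
    linarith
  set w : Fin (g + 1) → Fin (g + 1) → ℝ := fun i j => Real.log ‖s (b i) - s (b j)‖ with hw
  have hwsymm : ∀ i j, w i j = w j i := fun i j => by
    rw [hw]
    simp only
    rw [norm_sub_rev]
  have hoff : ∀ i j, i ≠ j → |I i j + 2 * Real.pi * w i j| ≤ 4 * Real.pi * e := by
    intro i j hij
    have hD : Disc (Y j) (s (b j)) (s (b i)) ρ :=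
      ⟨hYcd j, hYper j, fun t => hdisc j _ (hub t), by
        have h1 := H.sep j i (Ne.symm hij)
        have h2 := H.pos
        linarith⟩
    have hρ : ρ ≤ e * ‖s (b j) - s (b i)‖ := hρe j i (Ne.symm hij)
    have h1 := pr_near hD hR0 (e := e) (by linarith) fun t =>
      (hdisc j _ (hub t)).le.trans hρ
    have he0 : 0 ≤ e := by
      have h2 := H.pos.le.trans hρ
      exact nonneg_of_mul_nonneg_left h2 (norm_pos_iff.2 hD.ne)
    have h3 : 2 * Real.pi * (e / (1 - e)) ≤ 4 * Real.pi * e := by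
      have h4 : e / (1 - e) ≤ 2 * e := by
        rw [div_le_iff₀ (by linarith)]
        nlinarith
      have := Real.pi_pos
      nlinarith
    have h5 : w i j = Real.log ‖s (b j) - s (b i)‖ := hwsymm i j
    rw [h5]
    exact h1.trans h3
  have hg0 : (0 : ℝ) ≤ g := Nat.cast_nonneg g
  have hpi := Real.pi_pos
  have hdiag : ∀ i, |I i i - 2 * Real.pi * (Real.log ‖μ‖ + ∑ k ∈ Finset.univ.erase i, w i k)| ≤
      g * (4 * Real.pi * e) := by
    intro i
    have h1 := hrow i
    rw [← Finset.add_sum_erase Finset.univ _ (Finset.mem_univ i)] at h1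
    have h2 : I i i - 2 * Real.pi * (Real.log ‖μ‖ + ∑ k ∈ Finset.univ.erase i, w i k) =
        -∑ k ∈ Finset.univ.erase i, (I i k + 2 * Real.pi * w i k) := by
      rw [Finset.sum_add_distrib, ← Finset.mul_sum]
      linarith
    rw [h2, abs_neg]
    refine (Finset.abs_sum_le_sum_abs _ _).trans ?_
    have h3 : ∑ k ∈ Finset.univ.erase i, |I i k + 2 * Real.pi * w i k| ≤
        ∑ _k ∈ Finset.univ.erase i, 4 * Real.pi * e :=
      Finset.sum_le_sum fun k hk => hoff i k (Finset.ne_of_mem_erase hk).symm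
    refine h3.trans (le_of_eq ?_)
    rw [Finset.sum_const, Finset.card_erase_of_mem (Finset.mem_univ i), Finset.card_univ,
      Fintype.card_fin, nsmul_eq_mul]
    congr 1
  have hent : ∀ i j, |I i j - 2 * Real.pi * lap w (Real.log ‖μ‖) i j| ≤
      (if i = j then (g : ℝ) else 1) * (4 * Real.pi * e) := by
    intro i j
    unfold lap
    by_cases h : i = j
    · subst h
      rw [if_pos rfl, if_pos rfl]
      exact hdiag i
    · rw [if_neg h, if_neg h, one_mul, mul_neg, sub_neg_eq_add]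
      exact hoff i j h
  refine ⟨fun l => mkS (hYcd l.succ) hz.smooth (hYper l.succ) (circ_add_one R)
    (fun t => hP l.succ t), fun l θ y => ?_, fun l k => ?_⟩
  · rw [mkS_e, PtS.evA_pcst]
  · rw [mkS_reg (hYcd l.succ) hz]
    change |I k.succ l.succ - I 0 l.succ - _| ≤ _
    unfold lmat
    rw [Matrix.of_apply]
    have h1 := hent k.succ l.succ
    have h2 := hent 0 l.succ
    rw [if_neg (Fin.succ_ne_zero l).symm, one_mul] at h2
    have he0 : 0 ≤ 4 * Real.pi * e := (abs_nonneg _).trans h2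
    have h3 : (if k.succ = l.succ then (g : ℝ) else 1) ≤ g := by
      split_ifs
      · exact le_rfl
      · have := l.isLt
        exact_mod_cast (by omega : 1 ≤ g)
    have h4 := mul_le_mul_of_nonneg_right h3 he0
    have e1 : I k.succ l.succ - I 0 l.succ - 2 * Real.pi *
        (lap w (Real.log ‖μ‖) k.succ l.succ - lap w (Real.log ‖μ‖) 0 l.succ) =
        (I k.succ l.succ - 2 * Real.pi * lap w (Real.log ‖μ‖) k.succ l.succ) -
        (I 0 l.succ - 2 * Real.pi * lap w (Real.log ‖μ‖) 0 l.succ) := by ring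
    rw [e1]
    refine (abs_sub _ _).trans ?_
    have h5 : 4 * Real.pi * (g + 1) * e = g * (4 * Real.pi * e) + 4 * Real.pi * e := by ring
    rw [h5]
    linarith

/-- **The regulator matrix and its determinant.** -/
theorem exists_main (g : ℕ) : ∀ ε : ℝ, 0 < ε → ∃ C : ℝ, 1 ≤ C ∧
    ∀ {K : Type*} [Field K] (s : K →+* ℂ) (F : K[X]) (b : Fin (g + 1) → K) (D : ℝ),
      F.natDegree = g + 1 → (∀ m, ∃ ζ : ℂ, ‖ζ‖ = 1 ∧ s (F.eval (b m)) = ζ + ζ⁻¹) → 0 < D →
      (∀ i j, i ≠ j → D ≤ ‖s (b i) - s (b j)‖) → C ≤ ‖s F.leadingCoeff‖ * D ^ (g + 1) →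
      (∃ η, Sepd (F.map s) (fun j => s (b j)) (D / 2) η) ∧
      (lmat (fun i j => Real.log ‖s (b i) - s (b j)‖) (Real.log ‖s F.leadingCoeff‖)).det ≠ 0 ∧
      ∃ Γ : Fin g → Torus (POpen F b) 1,
        (∀ l θ (y : K), (Γ l).e θ (pcst F b y) = s y) ∧
        (∀ l k, |(Γ l).reg (symb (pent F b k.succ 0)) - 2 * Real.pi *
          lmat (fun i j => Real.log ‖s (b i) - s (b j)‖) (Real.log ‖s F.leadingCoeff‖) l k| ≤
          8 * Real.pi * (g + 1) * (2 ^ (g + 1) + 2 * (g + 1)) /
            (‖s F.leadingCoeff‖ * D ^ (g + 1))) ∧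
        |(Matrix.of fun l k : Fin g => (Γ l).reg (symb (pent F b k.succ 0))).det /
          ((2 * Real.pi) ^ g * (lmat (fun i j => Real.log ‖s (b i) - s (b j)‖)
            (Real.log ‖s F.leadingCoeff‖)).det) - 1| ≤ ε := by
  intro ε hε
  obtain ⟨δ, hδ, hnear⟩ := det_near g hε
  have hg0 : (0 : ℝ) ≤ g := Nat.cast_nonneg g
  have h2g : (0 : ℝ) < 2 ^ (g + 1) := by positivity
  set Cg : ℝ := 2 ^ (g + 1) + 2 * (g + 1) with hCg
  have hCg0 : 0 < Cg := by positivity
  refine ⟨4 * Cg + Real.exp 1 + 4 * (g + 1) * Cg / δ, ?_, ?_⟩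
  · have h1 : (1 : ℝ) ≤ Real.exp 1 := Real.one_le_exp (by norm_num)
    have h2 : 0 ≤ 4 * (g + 1) * Cg / δ := by positivity
    linarith
  intro K _ s F b D hdeg ht hD hsep hC
  set N : ℝ := ‖s F.leadingCoeff‖ * D ^ (g + 1) with hN
  have he1 : (1 : ℝ) ≤ Real.exp 1 := Real.one_le_exp (by norm_num)
  have h2 : 0 ≤ 4 * (g + 1) * Cg / δ := by positivity
  have hN4 : 4 * Cg ≤ N := by linarith
  have hNe : Real.exp 1 ≤ N := by linarith
  have hNδ : 4 * (g + 1) * Cg / δ ≤ N := by linarith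
  have hN0 : 0 < N := by linarith
  have hlead : (F.map s).leadingCoeff = s F.leadingCoeff := leadingCoeff_map s
  have hval2 : ∀ i, ‖(F.map s).eval (s (b i))‖ ≤ 2 := by
    intro i
    obtain ⟨ζ, hn, he⟩ := ht i
    rw [eval_map, eval₂_hom, he]
    refine (norm_add_le _ _).trans ?_
    rw [norm_inv, hn]
    norm_num
  have hsd : ∀ e : ℝ, 0 < e → e ≤ 1 / 2 → Cg < e * N →
      ∃ η, Sepd (F.map s) (fun j => s (b j)) (e * D) η := fun e he he2 heN =>
    sepd_small (F := F.map s) (b := fun i => s (b i)) (by rw [natDegree_map, hdeg]) hD he he2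
      hsep hval2 (by rw [hlead]; exact heN)
  set e : ℝ := 2 * Cg / N with hedef
  have he0 : 0 < e := by positivity
  have he2 : e ≤ 1 / 2 := by
    rw [hedef, div_le_div_iff₀ hN0 (by norm_num)]
    linarith
  have heN : Cg < e * N := by
    rw [hedef, div_mul_cancel₀ _ hN0.ne']
    linarith
  obtain ⟨η, H⟩ := hsd e he0 he2 heN
  have hlog : 1 ≤ Real.log N := by
    have := Real.log_le_log (Real.exp_pos 1) hNe
    rwa [Real.log_exp] at this
  have hlm0 : 0 < ‖s F.leadingCoeff‖ := by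
    rw [← hlead]
    exact norm_pos_iff.2 H.lead_ne_zero
  have hlogN : Real.log N = Real.log ‖s F.leadingCoeff‖ + (g + 1) * Real.log D := by
    rw [hN, Real.log_mul hlm0.ne' (pow_ne_zero _ hD.ne'), Real.log_pow]
    push_cast
    ring
  have hwsymm : ∀ i j, Real.log ‖s (b i) - s (b j)‖ = Real.log ‖s (b j) - s (b i)‖ :=
    fun i j => by rw [norm_sub_rev]
  have hwc : ∀ i j, i ≠ j → Real.log D ≤ Real.log ‖s (b i) - s (b j)‖ := fun i j hij =>
    Real.log_le_log hD (hsep i j hij)
  have hdet := det_lmat_ne_zero (w := fun i j => Real.log ‖s (b i) - s (b j)‖)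
    (m := Real.log ‖s F.leadingCoeff‖) hwsymm hwc hlogN (by linarith)
  obtain ⟨Γ, h1, h3⟩ := exists_loops_near H he2 (fun i j hij =>
    mul_le_mul_of_nonneg_left (hsep i j hij) he0.le) ht
  rw [hlead] at h3
  have hpi := Real.pi_pos
  refine ⟨?_, hdet, Γ, h1, fun l k => (h3 l k).trans (le_of_eq ?_), ?_⟩
  · obtain ⟨η', H'⟩ := hsd (1 / 2) (by norm_num) le_rfl (by linarith)
    exact ⟨η', by rw [div_eq_inv_mul, ← one_div]; exact H'⟩
  · rw [hedef]
    ring
  · have h4 := hnear (fun i j => Real.log ‖s (b i) - s (b j)‖) (Real.log ‖s F.leadingCoeff‖)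
      (Real.log D) (Real.log N) hwsymm hwc hlogN hlog
      (Matrix.of fun l k : Fin g => (Γ l).reg (symb (pent F b k.succ 0)) / (2 * Real.pi))
      (fun l k => by
        rw [Matrix.of_apply]
        have e1 : (Γ l).reg (symb (pent F b k.succ 0)) / (2 * Real.pi) -
            lmat (fun i j => Real.log ‖s (b i) - s (b j)‖) (Real.log ‖s F.leadingCoeff‖) l k =
            ((Γ l).reg (symb (pent F b k.succ 0)) - 2 * Real.pi *
            lmat (fun i j => Real.log ‖s (b i) - s (b j)‖) (Real.log ‖s F.leadingCoeff‖) l k) /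
              (2 * Real.pi) := by
          field_simp
        rw [e1, abs_div, abs_of_pos (by positivity : (0 : ℝ) < 2 * Real.pi),
          div_le_iff₀ (by positivity)]
        refine (h3 l k).trans ?_
        have h5 : 2 * (g + 1) * e ≤ δ := by
          rw [hedef]
          have h6 : 2 * (g + 1) * (2 * Cg / N) = (4 * (g + 1) * Cg) / N := by ring
          rw [h6, div_le_iff₀ hN0]
          rw [div_le_iff₀ hδ] at hNδ
          linarith
        nlinarith)
    have h6 := Pool.Agent.X321.DC.det_div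
      (Matrix.of fun l k : Fin g => (Γ l).reg (symb (pent F b k.succ 0)))
      (s := 2 * Real.pi) (by positivity)
    rw [Fintype.card_fin] at h6
    rw [← div_div, h6]
    exact h4

end Pool.Agent.X321.LG
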