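import Pool.Agent.TH690.UF.Final
import Pool.Agent.TH690.UR.Pair
set_option autoImplicit false

/-!
Separation with small discs, and the regulator integral of a function with values in a small disc.
-/

namespace Pool.Agent.X321.LG

open Polynomial

open Pool.Agent.TH826.UH

open Pool.Agent.TH690.UF (eval_eq)

open Pool.Agent.TH690.UR (Disc wn abs_log_le)

open Pool.Agent.TH826.MK (circ norm_circ)

open scoped Real

variable {g : ℕ} {F : ℂ[X]} {b : Fin (g + 1) → ℂ}

/-- The separation criterion with discs of radius `δ D`. -/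
theorem sepd_small (hdeg : F.natDegree = g + 1) {D δ : ℝ} (hD0 : 0 < D) (hδ : 0 < δ)
    (hδ2 : δ ≤ 1 / 2)
    (hsep : ∀ i j, i ≠ j → D ≤ ‖b i - b j‖) (hval2 : ∀ i, ‖F.eval (b i)‖ ≤ 2)
    (h : (2 : ℝ) ^ (g + 1) + 2 * (g + 1) < δ * (‖F.leadingCoeff‖ * D ^ (g + 1))) :
    ∃ η, Sepd F b (δ * D) η := by
  have hρ : 0 < δ * D := mul_pos hδ hD0
  have hb : Function.Injective b := by
    intro i j hij
    by_contra hne
    have h1 := hsep i j hne
    rw [hij, sub_self, norm_zero] at h1
    linarith
  have hF0 : F ≠ 0 := by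
    intro h
    rw [h, natDegree_zero] at hdeg
    omega
  have hdeg0 : 0 < F.degree := by
    rw [degree_eq_natDegree hF0, hdeg]
    exact_mod_cast Nat.succ_pos g
  have hout : ∀ x ∈ outer b (δ * D), 2 < ‖F.eval x‖ := by
    intro x hx
    have hxb : ∀ i, x ≠ b i := by
      intro i h1
      have h2 := hx i
      rw [h1, sub_self, norm_zero] at h2
      linarith
    rw [eval_eq hdeg hb hxb, norm_mul, norm_prod]
    set S : ℂ := ∑ i, (∏ j ∈ Finset.univ.erase i, (b i - b j)⁻¹) * (x - b i)⁻¹ * F.eval (b i)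
      with hS
    have hDp : 0 < D ^ (g + 1) := pow_pos hD0 _
    have hSn : ‖S‖ ≤ 2 * (g + 1) / (δ * D ^ (g + 1)) := by
      have h1 : ∀ i ∈ Finset.univ, ‖(∏ j ∈ Finset.univ.erase i, (b i - b j)⁻¹) * (x - b i)⁻¹ *
          F.eval (b i)‖ ≤ 2 / (δ * D ^ (g + 1)) := by
        intro i _
        rw [norm_mul, norm_mul, norm_prod, norm_inv]
        have h2 : ∏ j ∈ Finset.univ.erase i, ‖(b i - b j)⁻¹‖ ≤ (D⁻¹) ^ g := by
          calc ∏ j ∈ Finset.univ.erase i, ‖(b i - b j)⁻¹‖
              ≤ ∏ _j ∈ Finset.univ.erase i, D⁻¹ := by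
                refine Finset.prod_le_prod (fun j _ => norm_nonneg _) fun j hj => ?_
                rw [norm_inv]
                exact inv_anti₀ hD0 (hsep i j (Finset.ne_of_mem_erase hj).symm)
            _ = (D⁻¹) ^ g := by
                rw [Finset.prod_const, Finset.card_erase_of_mem (Finset.mem_univ i),
                  Finset.card_univ, Fintype.card_fin]
                rfl
        have h3 : ‖x - b i‖⁻¹ ≤ (δ * D)⁻¹ := inv_anti₀ hρ (hx i)
        calc (∏ j ∈ Finset.univ.erase i, ‖(b i - b j)⁻¹‖) * ‖x - b i‖⁻¹ * ‖F.eval (b i)‖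
            ≤ (D⁻¹) ^ g * (δ * D)⁻¹ * 2 := by
              refine mul_le_mul (mul_le_mul h2 h3 (by positivity) (by positivity)) (hval2 i)
                (norm_nonneg _) (by positivity)
          _ = 2 / (δ * D ^ (g + 1)) := by
              rw [inv_pow, pow_succ]
              field_simp
      refine (norm_sum_le _ _).trans ((Finset.sum_le_sum h1).trans (le_of_eq ?_))
      rw [Finset.sum_const, Finset.card_univ, Fintype.card_fin, nsmul_eq_mul]
      push_cast
      ring
    obtain ⟨p, -, hp⟩ := Finset.exists_min_image Finset.univ (fun i => ‖x - b i‖)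
      ⟨0, Finset.mem_univ _⟩
    have hP : δ * D * (D / 2) ^ g ≤ ∏ i, ‖x - b i‖ := by
      rw [← Finset.mul_prod_erase Finset.univ _ (Finset.mem_univ p)]
      refine mul_le_mul (hx p) ?_ (by positivity) (norm_nonneg _)
      calc (D / 2) ^ g = ∏ _i ∈ Finset.univ.erase p, (D / 2) := by
            rw [Finset.prod_const, Finset.card_erase_of_mem (Finset.mem_univ p),
              Finset.card_univ, Fintype.card_fin]
            rfl
        _ ≤ ∏ i ∈ Finset.univ.erase p, ‖x - b i‖ := by
            refine Finset.prod_le_prod (fun i _ => by positivity) fun i hi => ?_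
            have h1 := hsep i p (Finset.ne_of_mem_erase hi)
            have h2 := hp i (Finset.mem_univ i)
            have h3 : ‖b i - b p‖ ≤ ‖x - b p‖ + ‖x - b i‖ := by
              have : b i - b p = (x - b p) - (x - b i) := by ring
              rw [this]
              exact norm_sub_le _ _
            linarith
    have h2 : ‖F.leadingCoeff‖ - ‖S‖ ≤ ‖F.leadingCoeff + S‖ := by
      have := norm_sub_norm_le F.leadingCoeff (-S)
      rw [norm_neg, sub_neg_eq_add] at this
      exact this
    have h3 : 2 < δ * D * (D / 2) ^ g * (‖F.leadingCoeff‖ - 2 * (g + 1) / (δ * D ^ (g + 1))) := by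
      have h4 : δ * D * (D / 2) ^ g * (‖F.leadingCoeff‖ - 2 * (g + 1) / (δ * D ^ (g + 1))) =
          (δ * (‖F.leadingCoeff‖ * D ^ (g + 1)) - 2 * (g + 1)) / 2 ^ g := by
        rw [div_pow, pow_succ]
        field_simp
      rw [h4, lt_div_iff₀ (by positivity)]
      have h5 : (2 : ℝ) ^ (g + 1) = 2 * 2 ^ g := by ring
      linarith
    have h4 : 0 < ‖F.leadingCoeff‖ - 2 * (g + 1) / (δ * D ^ (g + 1)) := by
      rw [sub_pos, div_lt_iff₀ (by positivity)]
      have : (0 : ℝ) < 2 ^ (g + 1) := by positivity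
      nlinarith
    calc 2 < δ * D * (D / 2) ^ g * (‖F.leadingCoeff‖ - 2 * (g + 1) / (δ * D ^ (g + 1))) := h3
      _ ≤ (∏ i, ‖x - b i‖) * ‖F.leadingCoeff + S‖ := by
          refine mul_le_mul hP (by linarith) h4.le ?_
          exact Finset.prod_nonneg fun i _ => norm_nonneg _
  obtain ⟨η, hη, h2⟩ := exists_gap hdeg0 hout
  exact ⟨η, hdeg, Nat.succ_pos g, hρ, fun i j hij => by
    have := hsep i j hij
    nlinarith, hval2, hη, h2⟩

/-- The regulator of `z` and a function with values in a small disc. -/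
theorem pr_near {X : ℝ → ℂ} {c c' : ℂ} {ρ : ℝ} (h : Disc X c c' ρ) {R : ℝ} (hR : 0 < R) {e : ℝ}
    (he : e < 1) (hX : ∀ s, ‖X s - c‖ ≤ e * ‖c - c'‖) :
    |pr (circ R) (fun s => X s - c') + 2 * π * Real.log ‖c - c'‖| ≤ 2 * π * (e / (1 - e)) := by
  have nX := h.nz
  have hcc : c - c' ≠ 0 := h.ne
  have hlog : ∀ s, |Real.log ‖X s - c'‖ - Real.log ‖c - c'‖| ≤ e / (1 - e) := by
    intro s
    have h1 : X s - c' = (c - c') * (1 + (X s - c) / (c - c')) := by
      field_simp
      ring
    have h2 : ‖(X s - c) / (c - c')‖ ≤ e := by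
      rw [norm_div, div_le_iff₀ (norm_pos_iff.2 hcc)]
      exact hX s
    have h3 : (1 + (X s - c) / (c - c')) ≠ 0 := by
      intro h0
      rw [h0, mul_zero] at h1
      exact nX.ne_zero s h1
    rw [h1, norm_mul, Real.log_mul (norm_ne_zero_iff.2 hcc) (norm_ne_zero_iff.2 h3),
      add_sub_cancel_left]
    exact abs_log_le he h2
  have hpr : pr (circ R) (fun s => X s - c') = -(2 * π * ∫ s in (0 : ℝ)..1, Real.log ‖X s - c'‖) := by
    unfold pr
    simp only [ld_circ hR, norm_circ hR.le]
    have i1 : IntervalIntegrable (fun s => Real.log R *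
        (deriv (fun s => X s - c') s / (X s - c')).im) MeasureTheory.volume 0 1 :=
      (continuous_const.mul nX.cont_im).intervalIntegrable _ _
    have i2 : IntervalIntegrable (fun s => Real.log ‖X s - c'‖ * (2 * π))
        MeasureTheory.volume 0 1 := (nX.cont_log.mul continuous_const).intervalIntegrable _ _
    have hw : ∫ s in (0 : ℝ)..1, (deriv (fun s => X s - c') s / (X s - c')).im = 0 := h.wn
    rw [intervalIntegral.integral_sub i1 i2,
      intervalIntegral.integral_const_mul, hw, mul_zero, zero_sub,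
      intervalIntegral.integral_mul_const]
    ring
  have hint : (∫ s in (0 : ℝ)..1, Real.log ‖X s - c'‖) - Real.log ‖c - c'‖ =
      ∫ s in (0 : ℝ)..1, (Real.log ‖X s - c'‖ - Real.log ‖c - c'‖) := by
    rw [intervalIntegral.integral_sub (nX.cont_log.intervalIntegrable _ _)
      (continuous_const.intervalIntegrable _ _)]
    simp
  have hb := intervalIntegral.norm_integral_le_of_norm_le_const (a := (0 : ℝ)) (b := 1)
    (f := fun s => Real.log ‖X s - c'‖ - Real.log ‖c - c'‖) (C := e / (1 - e)) (fun s _ => by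
      rw [Real.norm_eq_abs]
      exact hlog s)
  rw [← hint, Real.norm_eq_abs, sub_zero, abs_one, mul_one] at hb
  rw [hpr]
  have e1 : -(2 * π * ∫ s in (0 : ℝ)..1, Real.log ‖X s - c'‖) + 2 * π * Real.log ‖c - c'‖ =
      -(2 * π * ((∫ s in (0 : ℝ)..1, Real.log ‖X s - c'‖) - Real.log ‖c - c'‖)) := by ring
  rw [e1, abs_neg, abs_mul, abs_of_pos (by positivity : (0 : ℝ) < 2 * π)]
  exact mul_le_mul_of_nonneg_left hb (by positivity)

end Pool.Agent.X321.LG
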